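import Pool.Agent.H774Z.Ditor.Main

/-!
Relative to a strongly compact cardinal it is consistent with ZFC that every join-semilattice of
breadth at most two and cardinality at least `ℵ_{ω+1}` has a principal ideal of cardinality at
least `ℵ_ω`. The definitions are in `Pool.Agent.H774Z.Ditor.Defs`; `CTM` (countable transitive
model of ZFC) is in `Pool.Agent.Helper212.CohenE.Defs`.
-/

set_option autoImplicit false

namespace Pool.Agent.Results.MP_537c7a_lc.AAConsistentNone

open Pool.Agent.H774Z.Ditor CohenE

/-- If there is a strongly compact cardinal, then there is a countable transitive model `W` of ZFC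
in which, with `μ = ℵ_ω` and `ν = ℵ_{ω+1}` as computed in `W`, every join-semilattice `(L, R)` of
breadth at most two with `ν ≤ |L|` has an element `a` such that `|↓a| < μ` fails. -/
theorem result (κ : Cardinal.{0}) (hκ : StronglyCompact κ) :
    ∃ W : Set ZFSet.{0}, CTM W ∧ ∃ μ ν, IsAlephOmega W μ ∧ IsSuccCard W μ ν ∧
      ∀ L ∈ W, ∀ R ∈ W, IsJoinSemilattice L R → BreadthLE L R 2 → LeIn W ν L →
        ∃ a ∈ L, ¬ ∃ β ∈ μ, LeIn W (down L R a) β :=
  main hκ

end Pool.Agent.Results.MP_537c7a_lc.AAConsistentNone
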