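import Pool.Agent.H284Z.Ditor

set_option autoImplicit false

namespace Pool.Agent.Results.MP_537c7a_lc.APIDNone

open Cardinal Pool.Agent.H284Z.Ditor

/-- Under the P-ideal dichotomy, for every uncountable cardinal `κ` of countable cofinality (such
as `ℵ_ω`), every join-semilattice of breadth at most two and of size above `κ` has a principal
ideal of size at least `κ`. -/
theorem result (hP : PID) (κ : Cardinal.{0}) (hκ : ℵ₀ < κ) (hc : κ.ord.cof = ℵ₀)
    (L : Type) [SemilatticeSup L] (hB : BreadthLE L 2) (hL : κ < #L) :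
    ∃ a : L, κ ≤ #(Set.Iic a) :=
  main hP hB hκ hc hL

example : ℵ₀ < ℵ_ Ordinal.omega0 ∧ (ℵ_ Ordinal.omega0 : Cardinal.{0}).ord.cof = ℵ₀ ∧
    (ℵ_ Ordinal.omega0 : Cardinal.{0}) < ℵ_ (Ordinal.omega0 + 1) := by
  refine ⟨?_, by simp, ?_⟩
  · rw [← aleph_zero, aleph_lt_aleph]; exact Ordinal.omega0_pos
  · rw [aleph_lt_aleph]; exact Order.lt_succ _

end Pool.Agent.Results.MP_537c7a_lc.APIDNone
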